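import Mathlib
import Pool.Agent.StarFin.Final

set_option autoImplicit false

namespace Pool.Agent.Results.MP_be6c88_an.DenseSmoothness

universe u

/-- Let `X` be an infinite-dimensional real Banach space whose norm is Fréchet differentiable at the
points of a dense set (for instance at every nonzero point), and let `C` be a set of closed balls of
positive radius which covers `X`. Then some ball in `C` intersects infinitely many members of `C`:
the covering is not star-finite. -/
theorem result : ∀ (X : Type u) [NormedAddCommGroup X] [NormedSpace ℝ X] [CompleteSpace X],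
    ¬ FiniteDimensional ℝ X →
    Dense {x : X | DifferentiableAt ℝ (fun y : X => ‖y‖) x} →
    ∀ C : Set (Set X), (∀ B ∈ C, ∃ (x : X) (r : ℝ), 0 < r ∧ B = Metric.closedBall x r) →
    (∀ x : X, ∃ B ∈ C, x ∈ B) →
    ∃ B ∈ C, {B' : Set X | B' ∈ C ∧ (B ∩ B').Nonempty}.Infinite := by
  intro X _ _ _ hinf hd C hball hcov
  by_contra hno
  have hfin : ∀ B ∈ C, {B' : Set X | B' ∈ C ∧ (B ∩ B').Nonempty}.Finite := by
    intro B hB
    by_contra h
    exact hno ⟨B, hB, h⟩
  have hball' : ∀ B : C, ∃ c : X, ∃ r : ℝ, 0 < r ∧ (B : Set X) = Metric.closedBall c r :=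
    fun B => hball B.1 B.2
  choose c r hr hB using hball'
  have hBl : ∀ B : C, StarFin.Bl c r B = (B : Set X) := fun B => (hB B).symm
  have hSF : StarFin.SF c r := by
    refine ⟨hr, ?_, ?_⟩
    · intro x
      obtain ⟨B, hBC, hxB⟩ := hcov x
      exact ⟨⟨B, hBC⟩, by rw [hBl]; exact hxB⟩
    · intro B
      refine Set.Finite.of_finite_image (f := Subtype.val) ?_ Subtype.val_injective.injOn
      refine (hfin B.1 B.2).subset ?_
      rintro _ ⟨B', hB', rfl⟩
      refine ⟨B'.2, ?_⟩
      have h1 : (StarFin.Bl c r B ∩ StarFin.Bl c r B').Nonempty := hB'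
      rwa [hBl, hBl] at h1
  exact StarFin.no_star_finite hinf hd hSF

end Pool.Agent.Results.MP_be6c88_an.DenseSmoothness
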